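import Pool.Agent.K3h63.IQ.Stm

/-!
# The part of an ideal in the span of a finite group is generated by an idempotent
-/

set_option autoImplicit false

universe v

namespace Pool.Agent.K3h51.IQ

open Pool.Agent.K3h63.IQ

theorem mas (A : Type v) [Ring A] [Algebra ℚ A] (G : Type v) [Group G] [Fintype G] (u : G →* A)
    (I S : Submodule ℚ A) (hl : ∀ a x : A, x ∈ I → a * x ∈ I) (hr : ∀ a x : A, x ∈ I → x * a ∈ I)
    (hS : S = Submodule.span ℚ (Set.range u)) :
    ∃ z ∈ I, z * z = z ∧ (∀ γ : G, z * u γ = u γ * z) ∧ ∀ x ∈ I, x ∈ S → x * z = x := by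
  classical
  have hSu : ∀ γ : G, u γ ∈ S := fun γ => by
    rw [hS]
    exact Submodule.subset_span ⟨γ, rfl⟩
  have hSl : ∀ (γ : G) (x : A), x ∈ S → u γ * x ∈ S := by
    intro γ x hx
    rw [hS] at hx
    induction hx using Submodule.span_induction with
    | mem x h =>
      obtain ⟨δ, rfl⟩ := h
      rw [← map_mul]
      exact hSu _
    | zero =>
      rw [mul_zero]
      exact S.zero_mem
    | add x y _ _ hx hy =>
      rw [mul_add]
      exact S.add_mem hx hy
    | smul a x _ hx =>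
      rw [mul_smul_comm]
      exact S.smul_mem a hx
  have hSr : ∀ (γ : G) (x : A), x ∈ S → x * u γ ∈ S := by
    intro γ x hx
    rw [hS] at hx
    induction hx using Submodule.span_induction with
    | mem x h =>
      obtain ⟨δ, rfl⟩ := h
      rw [← map_mul]
      exact hSu _
    | zero =>
      rw [zero_mul]
      exact S.zero_mem
    | add x y _ _ hx hy =>
      rw [add_mul]
      exact S.add_mem hx hy
    | smul a x _ hx =>
      rw [smul_mul_assoc]
      exact S.smul_mem a hx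
  obtain ⟨J, hJ⟩ : ∃ J : Submodule ℚ A, J = I ⊓ S := ⟨_, rfl⟩
  have hJl : ∀ (γ : G) (x : A), x ∈ J → u γ * x ∈ J := by
    intro γ x hx
    rw [hJ] at hx ⊢
    exact ⟨hl _ _ hx.1, hSl _ _ hx.2⟩
  have hJr : ∀ (γ : G) (x : A), x ∈ J → x * u γ ∈ J := by
    intro γ x hx
    rw [hJ] at hx ⊢
    exact ⟨hr _ _ hx.1, hSr _ _ hx.2⟩
  obtain ⟨g, hg⟩ := LinearMap.exists_leftInverse_of_injective J.subtype J.ker_subtype
  obtain ⟨p0, hp0⟩ : ∃ p0 : A →ₗ[ℚ] A, p0 = J.subtype.comp g := ⟨_, rfl⟩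
  have hpJ : ∀ a, p0 a ∈ J := fun a => by
    rw [hp0]
    exact (g a).2
  have hpx : ∀ x ∈ J, p0 x = x := by
    intro x hx
    have h1 := LinearMap.congr_fun hg ⟨x, hx⟩
    rw [hp0]
    have h2 := congrArg (fun y : J => (y : A)) h1
    exact h2
  obtain ⟨c, hc⟩ : ∃ c : ℚ, c = (Fintype.card G : ℚ)⁻¹ := ⟨_, rfl⟩
  have hcard : (Fintype.card G : ℚ) ≠ 0 := by exact_mod_cast Fintype.card_ne_zero
  have havg : ∀ x : A, c • ∑ _γ : G, x = x := by
    intro x
    rw [Finset.sum_const, Finset.card_univ, ← Nat.cast_smul_eq_nsmul ℚ, smul_smul, hc,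
      inv_mul_cancel₀ hcard, one_smul]
  have huu : ∀ γ : G, u γ⁻¹ * u γ = 1 := fun γ => by
    rw [← map_mul, inv_mul_cancel, map_one]
  have huu' : ∀ γ : G, u γ * u γ⁻¹ = 1 := fun γ => by
    rw [← map_mul, mul_inv_cancel, map_one]
  obtain ⟨e, he⟩ : ∃ e : A, e = c • ∑ γ : G, u γ⁻¹ * p0 (u γ) := ⟨_, rfl⟩
  have heJ : e ∈ J := by
    rw [he]
    exact J.smul_mem _ (J.sum_mem fun γ _ => hJl _ _ (hpJ _))
  -- the averaged projection
  have hse : ∀ s ∈ S, c • ∑ γ : G, u γ⁻¹ * p0 (u γ * s) = s * e := by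
    intro s hs
    rw [hS] at hs
    induction hs using Submodule.span_induction with
    | mem x h =>
      obtain ⟨δ, rfl⟩ := h
      rw [he, mul_smul_comm, Finset.mul_sum]
      congr 1
      rw [← Equiv.sum_comp (Equiv.mulRight δ⁻¹) (fun γ : G => u γ⁻¹ * p0 (u γ * u δ))]
      apply Finset.sum_congr rfl
      intro γ _
      simp only [Equiv.coe_mulRight]
      rw [← map_mul, inv_mul_cancel_right, mul_inv_rev, inv_inv, map_mul, mul_assoc]
    | zero => simp
    | add x y _ _ hx hy =>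
      rw [add_mul, ← hx, ← hy, ← smul_add, ← Finset.sum_add_distrib]
      congr 1
      apply Finset.sum_congr rfl
      intro γ _
      rw [mul_add, map_add, mul_add]
    | smul a x _ hx =>
      have h1 : ∀ γ : G, u γ⁻¹ * p0 (u γ * a • x) = a • (u γ⁻¹ * p0 (u γ * x)) := by
        intro γ
        rw [mul_smul_comm, map_smul, mul_smul_comm]
      rw [smul_mul_assoc, ← hx, Finset.sum_congr rfl fun γ _ => h1 γ, ← Finset.smul_sum,
        smul_comm]
  have hxe : ∀ x ∈ J, x * e = x := by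
    intro x hx
    have hxS : x ∈ S := by
      rw [hJ] at hx
      exact hx.2
    rw [← hse x hxS]
    have h1 : ∀ γ : G, u γ⁻¹ * p0 (u γ * x) = x := by
      intro γ
      rw [hpx _ (hJl γ x hx), ← mul_assoc, huu, one_mul]
    rw [Finset.sum_congr rfl fun γ _ => h1 γ]
    exact havg x
  obtain ⟨z, hz⟩ : ∃ z : A, z = c • ∑ γ : G, u γ * e * u γ⁻¹ := ⟨_, rfl⟩
  have hzJ : z ∈ J := by
    rw [hz]
    exact J.smul_mem _ (J.sum_mem fun γ _ => hJr _ _ (hJl _ _ heJ))
  have hxz : ∀ x ∈ J, x * z = x := by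
    intro x hx
    rw [hz, mul_smul_comm, Finset.mul_sum]
    have h1 : ∀ γ : G, x * (u γ * e * u γ⁻¹) = x := by
      intro γ
      rw [← mul_assoc, ← mul_assoc, hxe _ (hJr γ x hx), mul_assoc, huu', mul_one]
    rw [Finset.sum_congr rfl fun γ _ => h1 γ]
    exact havg x
  have hzI : z ∈ I := by
    rw [hJ] at hzJ
    exact hzJ.1
  refine ⟨z, hzI, hxz z hzJ, ?_, ?_⟩
  · intro δ
    rw [hz, smul_mul_assoc, mul_smul_comm, Finset.sum_mul, Finset.mul_sum]
    congr 1
    rw [← Equiv.sum_comp (Equiv.mulLeft δ) (fun γ : G => u γ * e * u γ⁻¹ * u δ)]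
    apply Finset.sum_congr rfl
    intro γ _
    simp only [Equiv.coe_mulLeft]
    rw [mul_inv_rev, mul_assoc (u (δ * γ) * e), ← map_mul, inv_mul_cancel_right, map_mul,
      mul_assoc, mul_assoc, mul_assoc]
  · intro x hx hxS
    apply hxz
    rw [hJ]
    exact ⟨hx, hxS⟩

theorem t_MAS : S_MAS.{v} := by
  intro A _ _ Γ _ I hl hr
  have := Fintype.ofFinite Γ
  obtain ⟨z, h1, h2, h3, h4⟩ := mas A Γ ((Units.coeHom A).comp Γ.subtype) I
    (Submodule.span ℚ {a : A | ∃ γ ∈ Γ, (γ : A) = a}) hl hr (by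
      congr 1
      ext a
      constructor
      · rintro ⟨γ, hγ, rfl⟩
        exact ⟨⟨γ, hγ⟩, rfl⟩
      · rintro ⟨γ, rfl⟩
        exact ⟨γ, γ.2, rfl⟩)
  exact ⟨z, h1, h2, fun γ hγ => h3 ⟨γ, hγ⟩, h4⟩

end Pool.Agent.K3h51.IQ
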