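import Pool.Agent.K3h63.IQ.Stm2
import Pool.Agent.K3h51.IQ.MAS

/-!
# Project IQ, brick PHAN: no homologically trivial elements in the image of the group algebra
-/

set_option autoImplicit false
set_option linter.unusedSectionVars false

open CategoryTheory Limits MonoidalCategory
open Pool.Agent.Y112.SR Pool.Agent.Y112.KD Pool.Agent.Y112.SC Pool.Agent.R905

namespace Pool.Agent.K3h51.IQ

open Pool.Agent.K3h63.IQ

universe v u w

section

variable {C : Type u} [Category.{v} C] [Preadditive C] [Linear ℚ C] [MonoidalCategory C]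
  [MonoidalPreadditive C] [MonoidalLinear ℚ C] [SymmetricCategory C] [RightRigidCategory C]

/-- an endomorphism is zero if its composition with the coevaluation is zero -/
lemma eq_zero_of_coev {M : C} (z : M ⟶ M) (h : η_ M (Mᘁ) ≫ z ▷ (Mᘁ) = 0) : z = 0 := by
  have h1 : (η_ M (Mᘁ)) ▷ M ≫ (z ▷ (Mᘁ)) ▷ M = 0 := by
    rw [← comp_whiskerRight, h, MonoidalPreadditive.zero_whiskerRight]
  have h2 : (λ_ M).hom ≫ z ≫ (ρ_ M).inv = 0 := by
    have h3 : (λ_ M).hom ≫ z ≫ (ρ_ M).inv = ((η_ M (Mᘁ)) ▷ M ≫ (z ▷ (Mᘁ)) ▷ M) ≫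
        (α_ M (Mᘁ) M).hom ≫ M ◁ ε_ M (Mᘁ) := by
      have h4 : (z ▷ (Mᘁ)) ▷ M ≫ (α_ M (Mᘁ) M).hom = (α_ M (Mᘁ) M).hom ≫ z ▷ (Mᘁ ⊗ M) :=
        associator_naturality_left z (Mᘁ) M
      rw [Category.assoc, reassoc_of% h4, ← whisker_exchange,
        ExactPairing.evaluation_coevaluation_assoc, rightUnitor_inv_naturality]
    rw [h3, h1, zero_comp]
  have h5 : z = (λ_ M).inv ≫ ((λ_ M).hom ≫ z ≫ (ρ_ M).inv) ≫ (ρ_ M).hom := by simp
  rw [h5, h2, zero_comp, comp_zero]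

/-- the coevaluation is invariant -/
lemma coev_act {G : Type} [Group G] {M : C} (ρ : G →* End M) (g : G) :
    η_ M (Mᘁ) ≫ (((ρ g : End M) : M ⟶ M) ⊗ₘ ((dualAct ρ g : End (Mᘁ : C)) : Mᘁ ⟶ Mᘁ)) =
      η_ M (Mᘁ) := by
  have h1 : ((ρ g⁻¹ : End M) : M ⟶ M) ≫ ((ρ g : End M) : M ⟶ M) = 𝟙 M := by
    have h2 : ρ g * ρ g⁻¹ = 1 := by rw [← map_mul, mul_inv_cancel, map_one]
    exact h2
  rw [dualAct_apply, tensorHom_def', coevaluation_comp_rightAdjointMate_assoc,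
    ← comp_whiskerRight, h1, id_whiskerRight, Category.comp_id]

end

theorem t_PHAN : S_PHAN.{v, u, w} := by
  intro C _ _ _ _ _ _ _ _ K _ R G _ _ M P ρ j q hI hP x hx hx0
  have hc := R_charZero R
  let I : Submodule ℚ (End M) :=
    { carrier := {f | R.H.map (f : M ⟶ M) = 0}
      zero_mem' := R.H.map_zero _ _
      add_mem' := fun {a b} ha hb => by
        have h3 := R.H.map_add (f := (a : M ⟶ M)) (g := b)
        have h4 : R.H.map (a : M ⟶ M) = 0 := ha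
        have h5 : R.H.map (b : M ⟶ M) = 0 := hb
        rw [h4, h5, add_zero] at h3
        exact h3
      smul_mem' := fun c a ha => by
        have h4 : R.H.map (a : M ⟶ M) = 0 := ha
        have h3 := R_smul R c (a : M ⟶ M)
        rw [h4, smul_zero] at h3
        exact h3 }
  have hIm : ∀ f : End M, f ∈ I ↔ R.H.map (f : M ⟶ M) = 0 := fun f => Iff.rfl
  have hfin : Finite (ρ.toHomUnits.range : Subgroup (End M)ˣ) := by
    have : Finite (Set.range ρ.toHomUnits) := Set.finite_range _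
    exact this
  obtain ⟨z, hz, hzz, hzc, hzx⟩ := t_MAS (End M) ρ.toHomUnits.range I (fun a x hx => by
    rw [hIm] at hx ⊢
    rw [End.mul_def, Functor.map_comp, hx, zero_comp]) (fun a x hx => by
    rw [hIm] at hx ⊢
    rw [End.mul_def, Functor.map_comp, hx, comp_zero])
  have hz0 : R.H.map (z : M ⟶ M) = 0 := hz
  have hzz' : (z : M ⟶ M) ≫ (z : M ⟶ M) = z := hzz
  have hcomm : ∀ g, ((ρ g : End M) : M ⟶ M) ≫ (z : M ⟶ M) = (z : M ⟶ M) ≫ ((ρ g : End M) : M ⟶ M) :=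
    fun g => hzc _ ⟨g, rfl⟩
  have hspan : x ∈ Submodule.span ℚ {a : End M | ∃ γ ∈ ρ.toHomUnits.range, (γ : End M) = a} := by
    refine Submodule.span_mono ?_ hx
    rintro _ ⟨g, rfl⟩
    exact ⟨ρ.toHomUnits g, ⟨g, rfl⟩, rfl⟩
  have hxz := hzx x hx0 hspan
  obtain ⟨W, hW⟩ : ∃ W : M ⊗ Mᘁ ⟶ M ⊗ Mᘁ, W = (z : M ⟶ M) ▷ (Mᘁ) := ⟨_, rfl⟩
  have hWW : W ≫ W = W := by rw [hW, ← comp_whiskerRight, hzz']
  have hWe : (q ≫ j) ≫ W = W ≫ (q ≫ j) := by
    rw [hI.proj, Linear.smul_comp, Linear.comp_smul, Preadditive.sum_comp, Preadditive.comp_sum]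
    congr 1
    refine Finset.sum_congr rfl fun g _ => ?_
    rw [hW, ← tensorHom_id, tensorHom_comp_tensorHom, tensorHom_comp_tensorHom, hcomm g,
      Category.comp_id, Category.id_comp]
  have hHW : R.H.map W = 0 := by
    rw [hW, map_whiskerRight_eq, hz0, bx_zero_left]
  obtain ⟨t, ht⟩ : ∃ t : P ⟶ P, t = j ≫ W ≫ q := ⟨_, rfl⟩
  have htt : t ≫ t = t := by
    have e1 : t ≫ t = j ≫ W ≫ ((q ≫ j) ≫ W) ≫ q := by
      rw [ht]
      simp only [Category.assoc]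
    rw [e1, hWe, ht]
    have e2 : (W ≫ q ≫ j) ≫ q = W ≫ q := by
      rw [Category.assoc, Category.assoc, hI.one, Category.comp_id]
    rw [e2, reassoc_of% hWW]
  have hHt : R.H.map t = 0 := by
    rw [ht, Functor.map_comp, Functor.map_comp, hHW, zero_comp, comp_zero]
  have ht0 : t = 0 := by
    obtain ⟨N, hN⟩ := hP (t : End P) hHt
    have hpow : ∀ s : End P, s * s = s → ∀ N : ℕ, s ^ (N + 1) = s := by
      intro s hs N
      induction N with
      | zero => rw [zero_add, pow_one]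
      | succ N ih =>
        rw [pow_succ, ih]
        exact hs
    have e1 := hpow t htt N
    rw [pow_succ, hN, zero_mul] at e1
    exact e1.symm
  have heW : (q ≫ j) ≫ W = 0 := by
    have e1 : (q ≫ j) ≫ W = q ≫ (j ≫ q) ≫ j ≫ W := by rw [hI.one, Category.id_comp, Category.assoc]
    have e2 : q ≫ (j ≫ q) ≫ j ≫ W = q ≫ j ≫ ((q ≫ j) ≫ W) := by simp only [Category.assoc]
    have e3 : q ≫ j ≫ (W ≫ (q ≫ j)) = q ≫ (j ≫ W ≫ q) ≫ j := by simp only [Category.assoc]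
    rw [e1, e2, hWe, e3, ← ht, ht0, zero_comp, comp_zero]
  have hη : η_ M (Mᘁ) ≫ (q ≫ j) = η_ M (Mᘁ) := by
    rw [hI.proj, Linear.comp_smul, Preadditive.comp_sum, Finset.sum_congr rfl fun g _ => coev_act ρ g,
      Finset.sum_const, Finset.card_univ, ← Nat.cast_smul_eq_nsmul ℚ, smul_smul, inv_mul_cancel₀, one_smul]
    exact_mod_cast Fintype.card_ne_zero
  have hηW : η_ M (Mᘁ) ≫ (z : M ⟶ M) ▷ (Mᘁ) = 0 := by
    rw [← hW, ← hη, Category.assoc, heW, comp_zero]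
  have hz1 : z = 0 := eq_zero_of_coev (z : M ⟶ M) hηW
  rw [← hxz, hz1, mul_zero]

end Pool.Agent.K3h51.IQ
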